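import Pool.Agent.N718.DC.Stm2

/-!
Project DC (helper718), part PADT (helper454): neighbouring points with bounded valuations and the
same square classes.
-/

set_option autoImplicit false

namespace Pool.Agent.N454.DC

open Pool.Agent.N718.DC Finset Polynomial

/-! ### forms and polynomials -/

/-- the polynomial `t ↦ fm c 1 t` -/
noncomputable def pl {e : ℕ} (c : Fin (e + 2) → ℤ) : ℤ[X] :=
  ∑ j : Fin (e + 2), C (c j) * X ^ (j : ℕ)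

lemma pl_eval {e : ℕ} (c : Fin (e + 2) → ℤ) (t : ℤ) : fm c 1 t = (pl c).eval t := by
  unfold fm pl
  rw [eval_finsetSum]
  refine Finset.sum_congr rfl fun j _ => ?_
  simp

lemma pl_deriv {e : ℕ} (c : Fin (e + 2) → ℤ) (t : ℤ) : dm c t = (pl c).derivative.eval t := by
  unfold dm pl
  rw [derivative_sum, eval_finsetSum]
  refine Finset.sum_congr rfl fun j _ => ?_
  simp only [derivative_mul, derivative_C, derivative_X_pow, zero_mul, zero_add, eval_mul, eval_C,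
    eval_pow, eval_X]
  ring

lemma fm_map {R S : Type} [CommRing R] [CommRing S] (φ : R →+* S) {e : ℕ} (c : Fin (e + 2) → R)
    (x y : R) : φ (fm c x y) = fm (fun j => φ (c j)) (φ x) (φ y) := by
  unfold fm
  rw [map_sum]
  refine Finset.sum_congr rfl fun j _ => ?_
  rw [map_mul, map_mul, map_pow, map_pow]

lemma fmv_map {R S : Type} [CommRing R] [CommRing S] (φ : R →+* S) {e : ℕ} (c : Fin (e + 2) → ℤ)
    (x y : R) : φ (fmv c x y) = fmv c (φ x) (φ y) := by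
  unfold fmv
  rw [fm_map]
  congr 1
  funext j
  exact map_intCast φ (c j)

lemma fmv_int {e : ℕ} (c : Fin (e + 2) → ℤ) (x y : ℤ) : fmv c x y = fm c x y := by
  unfold fmv
  congr 1

lemma fmv_cast {R : Type} [CommRing R] {e : ℕ} (c : Fin (e + 2) → ℤ) (x y : ℤ) :
    fmv c (x : R) (y : R) = ((fm c x y : ℤ) : R) := by
  have h := fmv_map (Int.castRingHom R) c x y
  rw [fmv_int] at h
  simpa using h.symm

lemma fmv_mul {R : Type} [CommRing R] {e : ℕ} (c : Fin (e + 2) → ℤ) (x t : R) :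
    fmv c x (x * t) = x ^ (e + 1) * ((pl c).map (Int.castRingHom R)).eval t := by
  unfold fmv fm pl
  rw [Polynomial.map_sum, eval_finsetSum, Finset.mul_sum]
  refine Finset.sum_congr rfl fun j _ => ?_
  have hj : (j : ℕ) ≤ e + 1 := by omega
  have h1 : x ^ (e + 1) = x ^ (e + 1 - (j : ℕ)) * x ^ (j : ℕ) := by
    rw [← pow_add, Nat.sub_add_cancel hj]
  rw [h1, mul_pow]
  simp only [Polynomial.map_mul, Polynomial.map_intCast, Polynomial.map_pow,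
    Polynomial.map_X, eval_mul, eval_intCast, eval_pow, eval_X, eq_intCast]
  ring

lemma fmv_rv {R : Type} [CommRing R] {e : ℕ} (c : Fin (e + 2) → ℤ) (x y : R) :
    fmv (rv c) x y = fmv c y x := by
  unfold fmv fm rv
  rw [← Equiv.sum_comp Fin.revPerm]
  refine Finset.sum_congr rfl fun j _ => ?_
  simp only [Fin.revPerm_apply, Fin.rev_rev]
  have hj : ((Fin.rev j : Fin (e + 2)) : ℕ) = e + 1 - (j : ℕ) := by
    rw [Fin.val_rev]; omega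
  have hj' : e + 1 - (e + 1 - (j : ℕ)) = (j : ℕ) := by omega
  rw [hj, hj']
  ring

lemma fm_rv {e : ℕ} (c : Fin (e + 2) → ℤ) (x y : ℤ) : fm (rv c) x y = fm c y x := by
  rw [← fmv_int, ← fmv_int, fmv_rv]

lemma fmv_congr {R : Type} [CommRing R] {e : ℕ} (c : Fin (e + 2) → ℤ) {q x y x' y' : R}
    (hx : q ∣ x - x') (hy : q ∣ y - y') : q ∣ fmv c x y - fmv c x' y' := by
  rw [← Ideal.mem_span_singleton, ← Ideal.Quotient.eq] at hx hy ⊢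
  rw [fmv_map, fmv_map, hx, hy]

/-! ### squares -/

variable {p : ℕ} [hp : Fact p.Prime]

lemma one_sq {z : ℤ_[p]} (hz : ‖z - 1‖ ≤ ((p : ℝ) ^ 3)⁻¹) : ∃ w : ℤ_[p], w ^ 2 = z := by
  have hp1 : (1 : ℝ) < p := by exact_mod_cast hp.out.one_lt
  have hp0 : (0 : ℝ) < p := by linarith
  have h2 : ((p : ℝ))⁻¹ ≤ ‖(2 : ℤ_[p])‖ := by
    by_cases h : p = 2
    · subst h
      have : ‖((2 : ℕ) : ℤ_[2])‖ = ((2 : ℕ) : ℝ)⁻¹ := PadicInt.norm_p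
      simpa using this.ge
    · have h3 : ‖(2 : ℤ_[p])‖ = 1 := by
        have h4 : ‖((2 : ℤ) : ℤ_[p])‖ = 1 := by
          by_contra hne
          have h5 : ‖((2 : ℤ) : ℤ_[p])‖ < 1 := lt_of_le_of_ne (PadicInt.norm_le_one _) hne
          rw [PadicInt.norm_int_lt_one_iff_dvd] at h5
          have h6 : p ∣ 2 := by exact_mod_cast h5
          rcases (Nat.dvd_prime Nat.prime_two).1 h6 with h7 | h7
          · exact hp.out.one_lt.ne' h7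
          · exact h h7
        simpa using h4
      rw [h3]
      exact inv_le_one_of_one_le₀ hp1.le
  obtain ⟨w, hw, -⟩ := hensels_lemma (p := p) (F := (X ^ 2 - C z : ℤ_[p][X])) (a := 1) (by
    have e1 : (aeval (1 : ℤ_[p])) (X ^ 2 - C z : ℤ_[p][X]) = 1 - z := by simp
    have e2 : (aeval (1 : ℤ_[p])) (derivative (X ^ 2 - C z : ℤ_[p][X])) = 2 := by
      simp
      norm_num
    rw [e1, e2, norm_sub_rev]
    have h3 : ((p : ℝ) ^ 3)⁻¹ < ((p : ℝ)⁻¹) ^ 2 := by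
      rw [inv_pow]
      exact inv_strictAnti₀ (by positivity) (pow_lt_pow_right₀ hp1 (by norm_num))
    calc ‖z - 1‖ ≤ ((p : ℝ) ^ 3)⁻¹ := hz
      _ < ((p : ℝ)⁻¹) ^ 2 := h3
      _ ≤ ‖(2 : ℤ_[p])‖ ^ 2 := by gcongr)
  refine ⟨w, ?_⟩
  have : w ^ 2 - z = 0 := by simpa using hw
  exact sub_eq_zero.1 this

lemma ratio_sq {A B : ℚ_[p]} (hB : B ≠ 0) (h : ‖A - B‖ ≤ ((p : ℝ) ^ 3)⁻¹ * ‖B‖) :
    ∃ w : ℚ_[p], w ≠ 0 ∧ A = B * w ^ 2 := by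
  have hp1 : (1 : ℝ) < p := by exact_mod_cast hp.out.one_lt
  have hp0 : (0 : ℝ) < p := by linarith
  have hB' : 0 < ‖B‖ := norm_pos_iff.2 hB
  have h1 : ‖A / B - 1‖ ≤ ((p : ℝ) ^ 3)⁻¹ := by
    have : A / B - 1 = (A - B) / B := by field_simp
    rw [this, norm_div, div_le_iff₀ hB']
    exact h
  have hlt : ((p : ℝ) ^ 3)⁻¹ < 1 := inv_lt_one_of_one_lt₀ (one_lt_pow₀ hp1 (by norm_num))
  have h2 : ‖A / B‖ ≤ 1 := by
    have h3 : A / B = (A / B - 1) + 1 := by ring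
    rw [h3]
    refine (IsUltrametricDist.norm_add_le_max _ _).trans (max_le (h1.trans hlt.le) ?_)
    rw [norm_one]
  obtain ⟨z, hz⟩ : ∃ z : ℤ_[p], (z : ℚ_[p]) = A / B := ⟨⟨A / B, h2⟩, rfl⟩
  obtain ⟨w, hw⟩ := one_sq (p := p) (z := z) (by
    have : ‖z - 1‖ = ‖A / B - 1‖ := by
      rw [PadicInt.norm_def, PadicInt.coe_sub, hz, PadicInt.coe_one]
    rw [this]
    exact h1)
  have hw' : (w : ℚ_[p]) ^ 2 = A / B := by
    rw [← hz, ← hw]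
    push_cast
    ring
  refine ⟨w, ?_, ?_⟩
  · intro h0
    rw [h0] at hw'
    have h4 : A / B = 0 := by rw [← hw']; simp
    rw [h4] at h1
    have : ‖(0 : ℚ_[p]) - 1‖ = 1 := by simp
    rw [this] at h1
    linarith
  · rw [hw']
    field_simp

/-! ### divisibility and norms -/

lemma dvd_iff (x : ℤ_[p]) (n : ℕ) : (p : ℤ_[p]) ^ n ∣ x ↔ ‖x‖ ≤ ((p : ℝ) ^ n)⁻¹ := by
  rw [← Ideal.mem_span_singleton, ← PadicInt.norm_le_pow_iff_mem_span_pow, zpow_neg, zpow_natCast]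

lemma not_dvd_norm {x : ℤ_[p]} {n : ℕ} (h : ¬ (p : ℤ_[p]) ^ n ∣ x) : ((p : ℝ) ^ n)⁻¹ < ‖x‖ := by
  rw [dvd_iff] at h
  exact not_le.1 h

lemma coe0 {x : ℤ_[p]} : (x : ℚ_[p]) = 0 ↔ x = 0 := by
  rw [← PadicInt.coe_zero]
  exact Subtype.coe_inj

/-- the polynomial over the `p`-adic integers -/
noncomputable def F {e : ℕ} (p : ℕ) [Fact p.Prime] (c : Fin (e + 2) → ℤ) : ℤ_[p][X] :=
  (pl c).map (Int.castRingHom ℤ_[p])

lemma F_int {e : ℕ} (c : Fin (e + 2) → ℤ) (t : ℤ) :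
    (F p c).eval (t : ℤ_[p]) = ((fm c 1 t : ℤ) : ℤ_[p]) := by
  unfold F
  rw [eval_intCast_map, pl_eval]
  rfl

lemma F_int' {e : ℕ} (c : Fin (e + 2) → ℤ) (t : ℤ) :
    (derivative (F p c)).eval (t : ℤ_[p]) = ((dm c t : ℤ) : ℤ_[p]) := by
  unfold F
  rw [derivative_map, eval_intCast_map, pl_deriv]
  rfl

/-- moving the point -/
lemma claimB {ι : Type} {e : ι → ℕ} (n : ℕ) (c : (k : ι) → Fin (e k + 2) → ℤ)
    (hdeg : ¬ degen p n c) (t : ℤ_[p]) (h0 : ∀ k, (F p (c k)).eval t ≠ 0) :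
    ∃ t' : ℤ_[p], (p : ℤ_[p]) ^ n ∣ t' - t ∧ ∀ k, ¬ (p : ℤ_[p]) ^ (3 * n + 11) ∣ (F p (c k)).eval t' ∧
      ∃ w : ℚ_[p], w ≠ 0 ∧
        (((F p (c k)).eval t : ℤ_[p]) : ℚ_[p]) = (((F p (c k)).eval t' : ℤ_[p]) : ℚ_[p]) * w ^ 2 := by
  have hp1 : (1 : ℝ) < p := by exact_mod_cast hp.out.one_lt
  have hp0 : (0 : ℝ) < p := by linarith
  by_cases hall : ∀ k, ¬ (p : ℤ_[p]) ^ (3 * n + 11) ∣ (F p (c k)).eval t
  · exact ⟨t, by simp, fun k => ⟨hall k, 1, one_ne_zero, by simp⟩⟩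
  push Not at hall
  obtain ⟨a, ha⟩ := hall
  -- the integer near t
  obtain ⟨t₀, ht₀⟩ : ∃ t₀ : ℤ, (p : ℤ_[p]) ^ n ∣ t - (t₀ : ℤ_[p]) := by
    refine ⟨(PadicInt.appr t n : ℤ), ?_⟩
    rw [← Ideal.mem_span_singleton]
    have := PadicInt.appr_spec n t
    simpa using this
  have tr : ∀ (P : ℤ_[p][X]), (p : ℤ_[p]) ^ n ∣ P.eval t ↔ (p : ℤ_[p]) ^ n ∣ P.eval (t₀ : ℤ_[p]) := by
    intro P
    have h1 : (p : ℤ_[p]) ^ n ∣ P.eval t - P.eval (t₀ : ℤ_[p]) :=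
      ht₀.trans (sub_dvd_eval_sub _ _ P)
    exact ⟨fun h => (dvd_sub_right h).1 h1, fun h => (dvd_sub_left h).1 h1⟩
  have ha0 : (p : ℤ) ^ n ∣ fm (c a) 1 t₀ := by
    have h1 : (p : ℤ_[p]) ^ n ∣ (F p (c a)).eval t := (pow_dvd_pow _ (by omega)).trans ha
    rw [tr, F_int, PadicInt.pow_p_dvd_int_iff] at h1
    exact h1
  have hb : ∀ b, b ≠ a → ¬ (p : ℤ_[p]) ^ n ∣ (F p (c b)).eval t := by
    intro b hba h1
    rw [tr, F_int, PadicInt.pow_p_dvd_int_iff] at h1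
    exact hdeg ⟨t₀, Or.inl ⟨b, a, hba, h1, ha0⟩⟩
  have ha' : ¬ (p : ℤ_[p]) ^ n ∣ (derivative (F p (c a))).eval t := by
    intro h1
    rw [tr, F_int', PadicInt.pow_p_dvd_int_iff] at h1
    exact hdeg ⟨t₀, Or.inr ⟨a, ha0, h1⟩⟩
  have hn : 1 ≤ n := by
    by_contra hn
    have : n = 0 := by omega
    subst this
    exact ha' (by simp)
  obtain ⟨A, hA⟩ : ∃ A, A = (F p (c a)).eval t := ⟨_, rfl⟩
  obtain ⟨A', hA'⟩ : ∃ A', A' = (derivative (F p (c a))).eval t := ⟨_, rfl⟩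
  have hA0 : A ≠ 0 := by rw [hA]; exact h0 a
  have hA'0 : A' ≠ 0 := by
    intro h; rw [← hA', h] at ha'; exact ha' (dvd_zero _)
  -- unit parts
  have eA := PadicInt.unitCoeff_spec hA0
  have eA' := PadicInt.unitCoeff_spec hA'0
  obtain ⟨u, hu⟩ : ∃ u : ℤ_[p]ˣ, u = PadicInt.unitCoeff hA0 := ⟨_, rfl⟩
  obtain ⟨u', hu'⟩ : ∃ u' : ℤ_[p]ˣ, u' = PadicInt.unitCoeff hA'0 := ⟨_, rfl⟩
  obtain ⟨w, hw⟩ : ∃ w : ℕ, w = A.valuation := ⟨_, rfl⟩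
  obtain ⟨v, hv⟩ : ∃ v : ℕ, v = A'.valuation := ⟨_, rfl⟩
  rw [← hu, ← hw] at eA
  rw [← hu', ← hv] at eA'
  have hw1 : 3 * n + 11 ≤ w := by
    rw [← hA, dvd_iff, ← zpow_natCast, ← zpow_neg, PadicInt.norm_le_pow_iff_le_valuation A hA0] at ha
    rw [hw]; exact ha
  have hv1 : v < n := by
    by_contra hvn
    rw [← hA', eA'] at ha'
    exact ha' (Dvd.dvd.mul_left (pow_dvd_pow _ (by omega)) _)
  obtain ⟨m, j, hm1, hm2, hmj⟩ : ∃ m j : ℕ, n + 3 ≤ m ∧ m ≤ n + 4 ∧ w = v + m + 2 * j := by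
    rcases Nat.even_or_odd (w - v - (n + 3)) with ⟨j, hj⟩ | ⟨j, hj⟩
    · exact ⟨n + 3, j, le_rfl, by omega, by omega⟩
    · exact ⟨n + 4, j, by omega, le_rfl, by omega⟩
  obtain ⟨h, hh⟩ : ∃ h : ℤ_[p], h = (p : ℤ_[p]) ^ m * (u * (u'⁻¹ : ℤ_[p]ˣ)) := ⟨_, rfl⟩
  refine ⟨t + h, ?_, ?_⟩
  · rw [add_sub_cancel_left, hh]
    exact Dvd.dvd.mul_right (pow_dvd_pow _ (by omega)) _
  intro k
  by_cases hk : k = a
  · subst hk
    obtain ⟨r, hr⟩ := binomExpansion (F p (c k)) t h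
    rw [← hA, ← hA'] at hr
    obtain ⟨s, hs⟩ : ∃ s : ℤ_[p], s = (p : ℤ_[p]) ^ (2 * j - 3) +
        (p : ℤ_[p]) ^ (m - v - 3) * (r * (u * (u'⁻¹ : ℤ_[p]ˣ) * (u'⁻¹ : ℤ_[p]ˣ))) := ⟨_, rfl⟩
    have hval : (F p (c k)).eval (t + h) = (p : ℤ_[p]) ^ (v + m) * (u * (1 + (p : ℤ_[p]) ^ 3 * s)) := by
      have hinv : (u' : ℤ_[p]) * (u'⁻¹ : ℤ_[p]ˣ) = 1 := Units.mul_inv u'
      have e1 : (p : ℤ_[p]) ^ w = (p : ℤ_[p]) ^ (v + m) * ((p : ℤ_[p]) ^ 3 * (p : ℤ_[p]) ^ (2 * j - 3)) := by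
        rw [← pow_add, ← pow_add]; congr 1; omega
      have e2 : (p : ℤ_[p]) ^ m * (p : ℤ_[p]) ^ m =
          (p : ℤ_[p]) ^ (v + m) * ((p : ℤ_[p]) ^ 3 * (p : ℤ_[p]) ^ (m - v - 3)) := by
        rw [← pow_add, ← pow_add, ← pow_add]; congr 1; omega
      have e3 : (p : ℤ_[p]) ^ v * (p : ℤ_[p]) ^ m = (p : ℤ_[p]) ^ (v + m) := by rw [← pow_add]
      rw [hr, eA, eA', hh, hs]
      calc (u : ℤ_[p]) * (p : ℤ_[p]) ^ w + (u' : ℤ_[p]) * (p : ℤ_[p]) ^ v * ((p : ℤ_[p]) ^ m * (u * (u'⁻¹ : ℤ_[p]ˣ))) +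
            r * ((p : ℤ_[p]) ^ m * (u * (u'⁻¹ : ℤ_[p]ˣ))) ^ 2
          = (u : ℤ_[p]) * (p : ℤ_[p]) ^ w + ((p : ℤ_[p]) ^ v * (p : ℤ_[p]) ^ m) * u * ((u' : ℤ_[p]) * (u'⁻¹ : ℤ_[p]ˣ)) +
            r * ((p : ℤ_[p]) ^ m * (p : ℤ_[p]) ^ m) * (u * (u'⁻¹ : ℤ_[p]ˣ)) ^ 2 := by ring
        _ = _ := by rw [hinv, e1, e2, e3]; ring
    have hz : ‖(1 + (p : ℤ_[p]) ^ 3 * s) - 1‖ ≤ ((p : ℝ) ^ 3)⁻¹ := by
      rw [add_sub_cancel_left, ← dvd_iff]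
      exact Dvd.intro _ rfl
    obtain ⟨q, hq⟩ := one_sq hz
    have hU : IsUnit (1 + (p : ℤ_[p]) ^ 3 * s) := by
      rw [PadicInt.isUnit_iff]
      by_contra hne
      have h1 : ‖1 + (p : ℤ_[p]) ^ 3 * s‖ < 1 := lt_of_le_of_ne (PadicInt.norm_le_one _) hne
      have hlt : ((p : ℝ) ^ 3)⁻¹ < 1 := inv_lt_one_of_one_lt₀ (one_lt_pow₀ hp1 (by norm_num))
      have h2 : ‖(1 : ℤ_[p])‖ < 1 := by
        have e : (1 : ℤ_[p]) = (1 + (p : ℤ_[p]) ^ 3 * s) - ((1 + (p : ℤ_[p]) ^ 3 * s) - 1) := by ring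
        rw [e, sub_eq_add_neg]
        refine (IsUltrametricDist.norm_add_le_max _ _).trans_lt (max_lt h1 ?_)
        rw [norm_neg]
        exact hz.trans_lt hlt
      rw [norm_one] at h2
      exact lt_irrefl _ h2
    constructor
    · rw [hval]
      intro hd
      have h1 : (p : ℤ_[p]) ^ (v + m) * (p : ℤ_[p]) ^ (3 * n + 11 - (v + m)) ∣
          (p : ℤ_[p]) ^ (v + m) * (u * (1 + (p : ℤ_[p]) ^ 3 * s)) := by
        rw [← pow_add, show v + m + (3 * n + 11 - (v + m)) = 3 * n + 11 by omega]; exact hd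
      have hpne : (p : ℤ_[p]) ^ (v + m) ≠ 0 := pow_ne_zero _ (by exact_mod_cast hp.out.ne_zero)
      have h2 := (mul_dvd_mul_iff_left hpne).1 h1
      have h3 : IsUnit ((p : ℤ_[p]) ^ (3 * n + 11 - (v + m))) :=
        isUnit_of_dvd_unit h2 (u.isUnit.mul hU)
      have h4 : IsUnit (p : ℤ_[p]) := (isUnit_pow_iff (by omega)).1 h3
      exact PadicInt.prime_p.not_isUnit h4
    · have hq0 : (q : ℚ_[p]) ≠ 0 := by
        intro h1
        have h2 : q = 0 := coe0.1 h1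
        rw [h2] at hq
        rw [← hq] at hU
        simp at hU
      have hpQ : (p : ℚ_[p]) ≠ 0 := by exact_mod_cast hp.out.ne_zero
      refine ⟨(p : ℚ_[p]) ^ j / q, div_ne_zero (pow_ne_zero _ hpQ) hq0, ?_⟩
      rw [hval, ← hA, eA, ← hq]
      push_cast
      rw [hmj, pow_add, pow_mul]
      field_simp
      rw [← pow_mul, ← pow_mul, mul_comm]
  · have hbk := hb k hk
    have hd : (p : ℤ_[p]) ^ m ∣ (F p (c k)).eval (t + h) - (F p (c k)).eval t := by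
      have h1 : h ∣ (F p (c k)).eval (t + h) - (F p (c k)).eval t := by
        have := sub_dvd_eval_sub (t + h) t (F p (c k))
        rwa [add_sub_cancel_left] at this
      refine Dvd.dvd.trans ?_ h1
      rw [hh]
      exact Dvd.intro _ rfl
    constructor
    · intro h1
      apply hbk
      have h2 : (p : ℤ_[p]) ^ n ∣ (F p (c k)).eval (t + h) := (pow_dvd_pow _ (by omega)).trans h1
      have h3 : (p : ℤ_[p]) ^ n ∣ (F p (c k)).eval (t + h) - (F p (c k)).eval t :=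
        (pow_dvd_pow _ (by omega)).trans hd
      exact (dvd_sub_right h2).1 h3
    · have h1 : ‖(((F p (c k)).eval (t + h) : ℤ_[p]) : ℚ_[p]) - (((F p (c k)).eval t : ℤ_[p]) : ℚ_[p])‖ ≤
          ((p : ℝ) ^ 3)⁻¹ * ‖(((F p (c k)).eval t : ℤ_[p]) : ℚ_[p])‖ := by
        rw [← PadicInt.coe_sub, ← PadicInt.norm_def, ← PadicInt.norm_def]
        have h2 := (dvd_iff _ _).1 hd
        have h3 := not_dvd_norm hbk
        refine h2.trans ?_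
        have h4 : ((p : ℝ) ^ m)⁻¹ ≤ ((p : ℝ) ^ 3)⁻¹ * ((p : ℝ) ^ n)⁻¹ := by
          rw [← mul_inv, ← pow_add]
          exact inv_anti₀ (by positivity) (pow_le_pow_right₀ hp1.le (by omega))
        refine h4.trans ?_
        gcongr
      obtain ⟨w', hw', hw''⟩ := ratio_sq (fun h5 => h0 k (coe0.1 h5)) h1
      refine ⟨w'⁻¹, inv_ne_zero hw', ?_⟩
      rw [hw'']
      field_simp

lemma case1 {ι : Type} {e : ι → ℕ} (N n : ℕ) (hN : N ≤ n) (c : (k : ι) → Fin (e k + 2) → ℤ)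
    (hdeg : ¬ degen p n c) (x y : ℚ_[p]) (hx : ‖x‖ = 1) (hy : ‖y‖ ≤ 1)
    (h0 : ∀ k, fmv (c k) x y ≠ 0) :
    ∃ a₀ a₁ : ℤ, ‖x - (a₀ : ℚ_[p])‖ ≤ (((p : ℝ) ^ N))⁻¹ ∧ ‖y - (a₁ : ℚ_[p])‖ ≤ (((p : ℝ) ^ N))⁻¹ ∧
      (∀ k, ¬ ((p : ℤ) ^ (3 * n + 12) ∣ fm (c k) a₀ a₁)) ∧
      ∀ k, ∃ z : ℚ_[p], z ≠ 0 ∧ fmv (c k) x y = ((fm (c k) a₀ a₁ : ℤ) : ℚ_[p]) * z ^ 2 := by
  have hp1 : (1 : ℝ) < p := by exact_mod_cast hp.out.one_lt
  have hp0 : (0 : ℝ) < p := by linarith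
  obtain ⟨x', rfl⟩ : ∃ x' : ℤ_[p], (x' : ℚ_[p]) = x := ⟨⟨x, hx.le⟩, rfl⟩
  obtain ⟨y', rfl⟩ : ∃ y' : ℤ_[p], (y' : ℚ_[p]) = y := ⟨⟨y, hy⟩, rfl⟩
  have hxu : IsUnit x' := by rw [PadicInt.isUnit_iff, PadicInt.norm_def]; exact hx
  obtain ⟨t, rfl⟩ : ∃ t, y' = x' * t := hxu.dvd
  have cast : ∀ (k : ι) (s s' : ℤ_[p]), fmv (c k) (s : ℚ_[p]) (s' : ℚ_[p]) =
      ((fmv (c k) s s' : ℤ_[p]) : ℚ_[p]) := fun k s s' =>
    (fmv_map (PadicInt.Coe.ringHom (p := p)) (c k) s s').symm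
  have hF : ∀ k, ∀ s : ℤ_[p], fmv (c k) x' (x' * s) = x' ^ (e k + 1) * (F p (c k)).eval s :=
    fun k s => fmv_mul (c k) x' s
  have h0' : ∀ k, (F p (c k)).eval t ≠ 0 := by
    intro k h1
    apply h0 k
    rw [cast, hF, h1]
    simp
  obtain ⟨t', ht', hk'⟩ := claimB n c hdeg t h0'
  have appr : ∀ s : ℤ_[p], ∃ a : ℤ, (p : ℤ_[p]) ^ (3 * n + 20) ∣ s - (a : ℤ_[p]) := by
    intro s
    refine ⟨(PadicInt.appr s (3 * n + 20) : ℤ), ?_⟩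
    rw [← Ideal.mem_span_singleton]
    have := PadicInt.appr_spec (3 * n + 20) s
    simpa using this
  obtain ⟨a₀, ha₀⟩ := appr x'
  obtain ⟨a₁, ha₁⟩ := appr (x' * t')
  have cvt : ∀ s : ℤ_[p], ∀ a : ℤ, (p : ℤ_[p]) ^ N ∣ s - (a : ℤ_[p]) →
      ‖(s : ℚ_[p]) - (a : ℚ_[p])‖ ≤ (((p : ℝ) ^ N))⁻¹ := by
    intro s a h1
    rw [dvd_iff, PadicInt.norm_def] at h1
    simpa using h1
  have key : ∀ k, ¬ (p : ℤ_[p]) ^ (3 * n + 11) ∣ ((fm (c k) a₀ a₁ : ℤ) : ℤ_[p]) ∧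
      (p : ℤ_[p]) ^ (3 * n + 20) ∣ fmv (c k) x' (x' * t') - ((fm (c k) a₀ a₁ : ℤ) : ℤ_[p]) := by
    intro k
    have h1 : (p : ℤ_[p]) ^ (3 * n + 20) ∣
        fmv (c k) x' (x' * t') - ((fm (c k) a₀ a₁ : ℤ) : ℤ_[p]) := by
      rw [← fmv_cast]
      exact fmv_congr (c k) ha₀ ha₁
    refine ⟨fun h2 => (hk' k).1 ?_, h1⟩
    have h3 : (p : ℤ_[p]) ^ (3 * n + 11) ∣
        fmv (c k) x' (x' * t') - ((fm (c k) a₀ a₁ : ℤ) : ℤ_[p]) :=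
      (pow_dvd_pow _ (by omega)).trans h1
    have h4 := (dvd_sub_left h2).1 h3
    rw [hF] at h4
    exact (IsUnit.dvd_mul_left (hxu.pow _)).1 h4
  refine ⟨a₀, a₁, cvt _ _ ((pow_dvd_pow _ (by omega)).trans ha₀), ?_, ?_, ?_⟩
  · refine cvt _ _ ?_
    have e1 : x' * t - (a₁ : ℤ_[p]) = (x' * t' - a₁) - x' * (t' - t) := by ring
    rw [e1]
    exact dvd_sub ((pow_dvd_pow _ (by omega)).trans ha₁)
      (((pow_dvd_pow _ hN).trans ht').mul_left _)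
  · intro k h1
    apply (key k).1
    rw [PadicInt.pow_p_dvd_int_iff]
    exact (pow_dvd_pow _ (by omega)).trans h1
  · intro k
    obtain ⟨w, hw, hww⟩ := (hk' k).2
    have hD0 : ((fm (c k) a₀ a₁ : ℤ) : ℤ_[p]) ≠ 0 := by
      intro h1
      apply (key k).1
      rw [h1]
      exact dvd_zero _
    have h1 : ‖((fmv (c k) x' (x' * t') : ℤ_[p]) : ℚ_[p]) -
        ((((fm (c k) a₀ a₁ : ℤ) : ℤ_[p])) : ℚ_[p])‖ ≤
        ((p : ℝ) ^ 3)⁻¹ * ‖((((fm (c k) a₀ a₁ : ℤ) : ℤ_[p])) : ℚ_[p])‖ := by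
      rw [← PadicInt.coe_sub, ← PadicInt.norm_def, ← PadicInt.norm_def]
      have h2 := (dvd_iff _ _).1 (key k).2
      have h3 := not_dvd_norm (key k).1
      refine h2.trans ?_
      have h4 : ((p : ℝ) ^ (3 * n + 20))⁻¹ ≤ ((p : ℝ) ^ 3)⁻¹ * ((p : ℝ) ^ (3 * n + 11))⁻¹ := by
        rw [← mul_inv, ← pow_add]
        exact inv_anti₀ (by positivity) (pow_le_pow_right₀ hp1.le (by omega))
      refine h4.trans ?_
      gcongr
    obtain ⟨w', hw', hww'⟩ := ratio_sq (fun h5 => hD0 (coe0.1 h5)) h1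
    refine ⟨w' * w, mul_ne_zero hw' hw, ?_⟩
    rw [cast, hF]
    rw [hF] at hww'
    have h5 : ((((fm (c k) a₀ a₁ : ℤ) : ℤ_[p])) : ℚ_[p]) = ((fm (c k) a₀ a₁ : ℤ) : ℚ_[p]) := by
      simp
    rw [h5] at hww'
    push_cast at hww' ⊢
    rw [hww, mul_pow, ← mul_assoc, hww']
    ring

theorem padt_ : S_PADT := by
  intro ι _ e p _ N n hN c hbad x y hxy h0
  have hx1 : ‖x‖ ≤ 1 := hxy ▸ le_max_left _ _
  have hy1 : ‖y‖ ≤ 1 := hxy ▸ le_max_right _ _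
  have hb1 : ¬ degen p n c := fun h => hbad (Or.inl h)
  have hb2 : ¬ degen p n (fun a => rv (c a)) := fun h => hbad (Or.inr h)
  by_cases hx : ‖x‖ = 1
  · exact case1 N n hN c hb1 x y hx hy1 h0
  · have hy : ‖y‖ = 1 := by
      rcases max_choice ‖x‖ ‖y‖ with h | h
      · exact absurd (h.symm.trans hxy) hx
      · exact h.symm.trans hxy
    obtain ⟨a₀, a₁, h1, h2, h3, h4⟩ := case1 N n hN (fun a => rv (c a)) hb2 y x hy hx1 (by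
      intro k
      rw [fmv_rv]
      exact h0 k)
    refine ⟨a₁, a₀, h2, h1, ?_, ?_⟩
    · intro k
      have := h3 k
      rwa [fm_rv] at this
    · intro k
      have := h4 k
      rwa [fm_rv, fmv_rv] at this

end Pool.Agent.N454.DC
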